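import Pool.Agent.Helper70.MB.Goals

/-!
# Project MB, packet DENS
-/

set_option autoImplicit false

namespace Pool.Agent.Helper30.MB

open MeasureTheory Set Metric Filter
open scoped ENNReal FourierTransform Topology ContDiff
open Pool.Agent.Results.MP_91ee6f_gt
open Pool.Agent.Helper70.MB

theorem ad_of_cut (hC : CUTF) {n : ℕ} {h : En n → ℝ} (hh : IsCut h) : Ad h := by
  have hi : Integrable h := hh.1.continuous.integrable_of_hasCompactSupport hh.2
  obtain ⟨h1, h2, -⟩ := hC n h hh
  obtain ⟨C, hC⟩ := h2 0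
  refine ⟨hh.1.continuous, hi, ?_⟩
  refine ((h1 (sx n)).const_mul C).mono' ?_ (Eventually.of_forall fun ξ => ?_)
  · exact ((continuous_br_rpow _).mul ((continuous_hat hi).norm.pow 2)).aestronglyMeasurable
  · rw [Real.norm_eq_abs, abs_of_nonneg (mul_nonneg (br_rpow_pos ξ _).le (sq_nonneg _))]
    have h3 := hC ξ
    rw [Real.rpow_zero, one_mul] at h3
    have h4 : ‖hat h ξ‖ ^ 2 ≤ C * ‖hat h ξ‖ := by
      rw [sq]
      exact mul_le_mul_of_nonneg_right h3 (norm_nonneg _)
    calc br ξ ^ sx n * ‖hat h ξ‖ ^ 2 ≤ br ξ ^ sx n * (C * ‖hat h ξ‖) :=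
          mul_le_mul_of_nonneg_left h4 (br_rpow_pos ξ _).le
      _ = C * (br ξ ^ sx n * ‖hat h ξ‖) := by ring

theorem pair_zero {n : ℕ} (h : En n → ℝ) : pair h (fun _ => 0) = 0 := by
  unfold pair
  have : ∀ ξ : En n, hat (fun _ => (0 : ℝ)) ξ = 0 := by
    intro ξ
    rw [hat_eq]
    simp
  simp [this]

section
variable {n : ℕ} {τ : Measure (En n)} [IsFiniteMeasure τ] {x₀ : En n} {a e : ℝ}

/-- comparison on open sets -/
theorem open_aux (h : ∀ f : En n → ℝ, IsCut f → (∀ x, 0 ≤ f x ∧ f x ≤ 1) →
      (∀ x, f x ≠ 0 → x ∈ ball x₀ 1) → |a * ∫ x, f x ∂τ - ∫ x, f x| ≤ e * ∫ x, f x)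
    {O : Set (En n)} (hO : IsOpen O) (hOB : O ⊆ ball x₀ 1) :
    |a * τ.real O - (volume : Measure (En n)).real O| ≤ e * (volume : Measure (En n)).real O := by
  obtain ⟨f, hsupp, hsm, hrange⟩ := hO.exists_contDiff_support_eq (n := ⊤)
  have hf0 : ∀ x, 0 ≤ f x := fun x => (hrange ⟨x, rfl⟩).1
  set g : ℕ → En n → ℝ := fun k x => (k : ℝ) * f x / (1 + k * f x) with hg
  have hden : ∀ (k : ℕ) x, 0 < 1 + (k : ℝ) * f x := fun k x => by
    have := hf0 x
    positivity
  have hg0 : ∀ k x, 0 ≤ g k x := fun k x => by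
    have := hf0 x
    have := hden k x
    rw [hg]; positivity
  have hg1 : ∀ k x, g k x ≤ 1 := fun k x => by
    rw [hg]
    simp only
    rw [div_le_one (hden k x)]
    linarith
  have hgz : ∀ k x, x ∉ O → g k x = 0 := fun k x hx => by
    have : f x = 0 := by
      by_contra h0
      exact hx (hsupp ▸ (Function.mem_support.2 h0))
    rw [hg]; simp [this]
  have hgs : ∀ k x, g k x ≠ 0 → x ∈ ball x₀ 1 := fun k x hx => by
    by_contra h0
    exact hx (hgz k x fun h1 => h0 (hOB h1))
  have hcut : ∀ k, IsCut (g k) := fun k => by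
    refine ⟨?_, ?_⟩
    · rw [hg]
      exact (contDiff_const.mul hsm).div (contDiff_const.add (contDiff_const.mul hsm))
        fun x => (hden k x).ne'
    · refine HasCompactSupport.of_support_subset_isCompact (isCompact_closedBall x₀ 1)
        fun x hx => ball_subset_closedBall (hgs k x hx)
  have hlim : ∀ x, Tendsto (fun k => g k x) atTop (𝓝 (O.indicator (fun _ => (1 : ℝ)) x)) := by
    intro x
    by_cases hx : x ∈ O
    · rw [indicator_of_mem hx]
      have hfx : 0 < f x := lt_of_le_of_ne (hf0 x) (by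
        have : x ∈ Function.support f := hsupp ▸ hx
        exact (Function.mem_support.1 this).symm)
      have h1 : ∀ k : ℕ, g k x = 1 - 1 / (1 + k * f x) := by
        intro k
        rw [hg]
        simp only
        have := hden k x
        field_simp
        ring
      simp_rw [h1]
      have h2 : Tendsto (fun k : ℕ => 1 + (k : ℝ) * f x) atTop atTop :=
        tendsto_atTop_add_const_left _ _ (tendsto_natCast_atTop_atTop.atTop_mul_const hfx)
      have h3 : Tendsto (fun k : ℕ => 1 / (1 + (k : ℝ) * f x)) atTop (𝓝 0) :=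
        h2.inv_tendsto_atTop.congr fun k => by
          rw [Pi.inv_apply, one_div]
      have h4 : Tendsto (fun k : ℕ => 1 - 1 / (1 + (k : ℝ) * f x)) atTop (𝓝 (1 - 0)) :=
        tendsto_const_nhds.sub h3
      simpa using h4
    · rw [indicator_of_notMem hx]
      refine tendsto_const_nhds.congr fun k => (hgz k x hx).symm
  have hOm := hO.measurableSet
  have hvB : (volume : Measure (En n)) (ball x₀ 1) < ⊤ := measure_ball_lt_top
  have hv : Integrable ((ball x₀ 1).indicator (fun _ => (1 : ℝ))) (volume : Measure (En n)) :=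
    (integrable_indicator_iff measurableSet_ball).2 (integrableOn_const hvB.ne)
  have hgv : Tendsto (fun k => ∫ x, g k x) atTop (𝓝 (∫ x, O.indicator (fun _ => (1 : ℝ)) x)) := by
    refine tendsto_integral_of_dominated_convergence _
      (fun k => (hcut k).1.continuous.aestronglyMeasurable) hv
      (fun k => Eventually.of_forall fun x => ?_) (Eventually.of_forall hlim)
    rw [Real.norm_eq_abs, abs_of_nonneg (hg0 k x)]
    by_cases hx : x ∈ ball x₀ 1
    · rw [indicator_of_mem hx]; exact hg1 k x
    · rw [indicator_of_notMem hx, hgz k x fun h1 => hx (hOB h1)]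
  have hgt : Tendsto (fun k => ∫ x, g k x ∂τ) atTop
      (𝓝 (∫ x, O.indicator (fun _ => (1 : ℝ)) x ∂τ)) := by
    refine tendsto_integral_of_dominated_convergence (fun _ => (1 : ℝ))
      (fun k => (hcut k).1.continuous.aestronglyMeasurable) (integrable_const _)
      (fun k => Eventually.of_forall fun x => ?_) (Eventually.of_forall hlim)
    rw [Real.norm_eq_abs, abs_of_nonneg (hg0 k x)]
    exact hg1 k x
  rw [integral_indicator hOm, setIntegral_const, smul_eq_mul, mul_one] at hgv hgt
  have h5 := ((hgt.const_mul a).sub hgv).abs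
  have h6 := hgv.const_mul e
  exact le_of_tendsto_of_tendsto' h5 h6 fun k =>
    h (g k) (hcut k) (fun x => ⟨hg0 k x, hg1 k x⟩) (hgs k)

/-- comparison on measurable sets -/
theorem meas_aux (ha : 0 ≤ a) (he : 0 ≤ e) (h : ∀ f : En n → ℝ, IsCut f → (∀ x, 0 ≤ f x ∧ f x ≤ 1) →
      (∀ x, f x ≠ 0 → x ∈ ball x₀ 1) → |a * ∫ x, f x ∂τ - ∫ x, f x| ≤ e * ∫ x, f x)
    {A : Set (En n)} (hA : MeasurableSet A) (hAB : A ⊆ ball x₀ 1) :
    |a * τ.real A - (volume : Measure (En n)).real A| ≤ e * (volume : Measure (En n)).real A := by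
  have hvB : (volume : Measure (En n)) (ball x₀ 1) < ⊤ := measure_ball_lt_top
  set v : Measure (En n) := volume.restrict (ball x₀ 1) with hv
  have : IsFiniteMeasure v := ⟨by rw [hv, Measure.restrict_apply_univ]; exact hvB⟩
  refine le_of_forall_pos_le_add fun η hη => ?_
  set δ : ℝ := η / (a + 1 + e) with hδ
  have hpos : 0 < a + 1 + e := by linarith
  have hδ0 : 0 < δ := by positivity
  obtain ⟨U, hAU, hU, -, hUd⟩ := hA.exists_isOpen_sdiff_lt (μ := τ + v) (measure_ne_top _ _)
    (ε := ENNReal.ofReal δ) (ENNReal.ofReal_pos.2 hδ0).ne'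
  set O := U ∩ ball x₀ 1 with hO
  have hAO : A ⊆ O := subset_inter hAU hAB
  have hOo : IsOpen O := hU.inter isOpen_ball
  have hOB : O ⊆ ball x₀ 1 := inter_subset_right
  have hd : (τ + v) (O \ A) < ENNReal.ofReal δ :=
    lt_of_le_of_lt (measure_mono (sdiff_subset_sdiff_left inter_subset_left)) hUd
  rw [Measure.add_apply] at hd
  have hm : MeasurableSet (O \ A) := hOo.measurableSet.diff hA
  have hvd : v (O \ A) = volume (O \ A) := by
    rw [hv, Measure.restrict_apply hm]
    congr 1
    exact inter_eq_left.2 (sdiff_subset.trans hOB)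
  have hτ : τ.real (O \ A) ≤ δ := by
    have h1 : τ (O \ A) ≤ ENNReal.ofReal δ := le_self_add.trans hd.le
    exact ENNReal.toReal_le_of_le_ofReal hδ0.le h1
  have hvv : (volume : Measure (En n)).real (O \ A) ≤ δ := by
    have h1 : volume (O \ A) ≤ ENNReal.ofReal δ := by
      rw [← hvd]
      exact le_add_self.trans hd.le
    exact ENNReal.toReal_le_of_le_ofReal hδ0.le h1
  have hvO : (volume : Measure (En n)) O ≠ ⊤ := ne_top_of_le_ne_top hvB.ne (measure_mono hOB)
  have hvA : (volume : Measure (En n)) A ≠ ⊤ := ne_top_of_le_ne_top hvB.ne (measure_mono hAB)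
  have e1 : τ.real O = τ.real A + τ.real (O \ A) := by
    rw [measureReal_sdiff hAO hA]
    ring
  have e2 : (volume : Measure (En n)).real O = (volume : Measure (En n)).real A +
      (volume : Measure (En n)).real (O \ A) := by
    rw [measureReal_sdiff hAO hA hvO]
    ring
  have h0 := open_aux h hOo hOB
  rw [e1, e2] at h0
  have p1 : 0 ≤ τ.real (O \ A) := measureReal_nonneg
  have p2 : 0 ≤ (volume : Measure (En n)).real (O \ A) := measureReal_nonneg
  have hη' : η = a * δ + δ + e * δ := by
    rw [hδ]; field_simp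
  have q1 : a * τ.real (O \ A) ≤ a * δ := mul_le_mul_of_nonneg_left hτ ha
  have q2 : e * (volume : Measure (En n)).real (O \ A) ≤ e * δ := mul_le_mul_of_nonneg_left hvv he
  have q3 : 0 ≤ a * τ.real (O \ A) := mul_nonneg ha p1
  have q4 : 0 ≤ e * (volume : Measure (En n)).real (O \ A) := mul_nonneg he p2
  rw [abs_le] at h0 ⊢
  obtain ⟨h0l, h0u⟩ := h0
  constructor
  · nlinarith
  · nlinarith

end

theorem dens : ZERO → CUTF → KEYF → BDD → KAPI → DENS := by
  intro hZ hC hK hB hI n hn
  obtain ⟨L₀, hL₀, hZ⟩ := hZ n hn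
  obtain ⟨CK', hCK, hK⟩ := hK n hn
  obtain ⟨CB, hCB, hB⟩ := hB n hn
  obtain ⟨hI1, CI, hCI, hI2⟩ := hI n hn
  have hCKn : 0 ≤ CK n := integral_nonneg fun x => (Real.exp_pos _).le
  refine ⟨L₀ + 4, CK' * (CB * CI) * Real.exp (L₀ / 16), 1 / 16, by positivity, by positivity,
    by norm_num, ?_⟩
  intro X τ hX hKT r A hr hA hAX
  have hfin := hKT.fin
  obtain ⟨hB1, -⟩ := hB X τ hKT
  set R := r - L₀ with hR
  have hR4 : 4 ≤ R := by linarith
  set ε := CK' * (CB * CI) * Real.exp (-(R / 16)) with hε
  have hε0 : 0 ≤ ε := by positivity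
  have hεeq : CK' * (CB * CI) * Real.exp (L₀ / 16) * Real.exp (-(1 / 16 * r)) = ε := by
    rw [hε, mul_assoc, ← Real.exp_add]
    congr 2
    rw [hR]; ring
  rw [hεeq]
  -- local estimate
  have hloc : ∀ x₀ ∈ A, ∀ f : En n → ℝ, IsCut f → (∀ x, 0 ≤ f x ∧ f x ≤ 1) →
      (∀ x, f x ≠ 0 → x ∈ ball x₀ 1) →
      |CK n * ∫ x, f x ∂τ - ∫ x, f x| ≤ ε * ∫ x, f x ∧
      (Odd n → |CK n * ∫ x, f x ∂τ - ∫ x, f x| ≤ 0 * ∫ x, f x) := by
    intro x₀ hx₀ f hf hf01 hfs
    have hg0 : ∀ x, ‖x - x₀‖ ≤ R → gg τ x = 0 := by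
      intro x hx
      refine hZ X τ hKT x (Subset.trans ?_ (hAX x₀ hx₀))
      refine closedBall_subset_closedBall' ?_
      rw [dist_eq_norm]
      linarith
    have hu0 : (fun x => cut x₀ (R / 2) x * gg τ x) = fun _ => 0 := by
      funext x
      by_cases hx : ‖x - x₀‖ ≤ R
      · rw [hg0 x hx, mul_zero]
      · rw [cut_zero (by linarith) (by linarith), zero_mul]
    have hAd := ad_of_cut hC hf
    obtain ⟨-, hK1⟩ := hK τ hfin x₀ (R / 2) (by linarith)
    obtain ⟨hK2, hK3⟩ := hK1 f hAd (fun y hy => by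
      have := hfs y hy
      rw [mem_ball, dist_eq_norm] at this
      linarith)
    rw [hu0, pair_zero] at hK2 hK3
    have hfi : Integrable f := hAd.2.1
    constructor
    · rw [zero_sub, abs_neg] at hK2
      refine hK2.trans ?_
      have htl : ∀ y, ‖y - x₀‖ ≤ 1 → tl τ x₀ (R / 2) y ≤ CB * CI * Real.exp (-(R / 16)) := by
        intro y hy
        have hs : MeasurableSet {z : En n | R / 4 ≤ ‖z‖} :=
          measurableSet_le measurable_const measurable_norm
        have hint : Integrable ({z : En n | R / 4 ≤ ‖z‖}.indicator (kap : En n → ℝ)) :=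
          (integrable_indicator_iff hs).2 (hI1 (R / 4) (by linarith))
        have h1 : tl τ x₀ (R / 2) y ≤
            ∫ x, CB * {z : En n | R / 4 ≤ ‖z‖}.indicator (kap : En n → ℝ) (x - y) := by
          unfold tl
          refine integral_mono_of_nonneg (Eventually.of_forall fun x => ?_)
            ((hint.comp_sub_right y).const_mul CB) (Eventually.of_forall fun x => ?_)
          · exact mul_nonneg (kap_nonneg _) (mul_nonneg (by linarith [cut_le_one x₀ (R / 2) x])
              (abs_nonneg _))
          · simp only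
            by_cases hx : ‖x - x₀‖ ≤ R
            · rw [hg0 x hx, abs_zero, mul_zero, mul_zero]
              exact mul_nonneg hCB.le (indicator_nonneg (fun z _ => kap_nonneg z) _)
            · have h2 : x - y ∈ {z : En n | R / 4 ≤ ‖z‖} := by
                show R / 4 ≤ ‖x - y‖
                have h3 : ‖x - x₀‖ ≤ ‖x - y‖ + ‖y - x₀‖ := by
                  have := norm_add_le (x - y) (y - x₀)
                  rwa [sub_add_sub_cancel] at this
                linarith [not_le.1 hx]
              rw [indicator_of_mem h2, mul_comm CB]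
              refine mul_le_mul_of_nonneg_left ?_ (kap_nonneg _)
              calc (1 - cut x₀ (R / 2) x) * |gg τ x| ≤ 1 * CB :=
                    mul_le_mul (by linarith [cut_nonneg x₀ (R / 2) x]) (hB1 x) (abs_nonneg _)
                      zero_le_one
                _ = CB := one_mul _
        refine h1.trans ?_
        rw [integral_const_mul, integral_sub_right_eq_self
          (fun z => {z : En n | R / 4 ≤ ‖z‖}.indicator (kap : En n → ℝ) z) y,
          integral_indicator hs, mul_assoc]
        refine mul_le_mul_of_nonneg_left ?_ hCB.le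
        have h4 := hI2 (R / 4) (by linarith)
        have h5 : R / 4 / 4 = R / 16 := by ring
        rwa [h5] at h4
      have h6 : ∫ y, |f y| * tl τ x₀ (R / 2) y ≤
          ∫ y, f y * (CB * CI * Real.exp (-(R / 16))) := by
        refine integral_mono_of_nonneg (Eventually.of_forall fun y => ?_) (hfi.mul_const _)
          (Eventually.of_forall fun y => ?_)
        · refine mul_nonneg (abs_nonneg _) (integral_nonneg fun x => ?_)
          exact mul_nonneg (kap_nonneg _) (mul_nonneg (by linarith [cut_le_one x₀ (R / 2) x])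
              (abs_nonneg _))
        · simp only
          rw [abs_of_nonneg (hf01 y).1]
          by_cases hy : f y = 0
          · rw [hy, zero_mul, zero_mul]
          · refine mul_le_mul_of_nonneg_left (htl y ?_) (hf01 y).1
            have := hfs y hy
            rw [mem_ball, dist_eq_norm] at this
            exact this.le
      calc CK' * ∫ y, |f y| * tl τ x₀ (R / 2) y ≤
          CK' * ∫ y, f y * (CB * CI * Real.exp (-(R / 16))) :=
            mul_le_mul_of_nonneg_left h6 hCK.le
        _ = ε * ∫ x, f x := by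
            rw [integral_mul_const, hε]; ring
    · intro hodd
      have := hK3 hodd
      rw [← this, abs_zero, zero_mul]
  -- the balls
  have hbdd : ∀ e : ℝ, 0 ≤ e → (∀ x₀ ∈ A, ∀ f : En n → ℝ, IsCut f → (∀ x, 0 ≤ f x ∧ f x ≤ 1) →
      (∀ x, f x ≠ 0 → x ∈ ball x₀ 1) → |CK n * ∫ x, f x ∂τ - ∫ x, f x| ≤ e * ∫ x, f x) →
      |CK n * τ.real A - (volume : Measure (En n)).real A| ≤
        e * (volume : Measure (En n)).real A := by
    intro e he hl
    have hAsub : A ⊆ X := fun x hx => hAX x hx (mem_closedBall_self (by linarith))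
    have htb : TotallyBounded A := hX.totallyBounded.subset hAsub
    obtain ⟨t, htA, htf, hcov⟩ := Metric.finite_approx_of_totallyBounded htb 1 one_pos
    have hvA : (volume : Measure (En n)) A ≠ ⊤ :=
      ne_top_of_le_ne_top hX.measure_lt_top.ne (measure_mono hAsub)
    have key : ∀ s : Set (En n), s.Finite → s ⊆ t →
        |CK n * τ.real (A ∩ ⋃ y ∈ s, ball y 1) -
          (volume : Measure (En n)).real (A ∩ ⋃ y ∈ s, ball y 1)| ≤
        e * (volume : Measure (En n)).real (A ∩ ⋃ y ∈ s, ball y 1) := by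
      intro s hs
      induction s, hs using Set.Finite.induction_on with
      | empty => intro _; simp
      | @insert y s hy hs ih =>
        intro hst
        have ih' := ih ((subset_insert _ _).trans hst)
        have hyA : y ∈ A := htA (hst (mem_insert _ _))
        set P := A ∩ ⋃ z ∈ s, ball z 1 with hP
        have hPm : MeasurableSet P :=
          hA.inter (Set.Finite.measurableSet_biUnion hs fun _ _ => measurableSet_ball)
        set Q := (A ∩ ball y 1) \ P with hQ
        have hQm : MeasurableSet Q := (hA.inter measurableSet_ball).diff hPm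
        have hPQ : A ∩ ⋃ z ∈ insert y s, ball z 1 = P ∪ Q := by
          rw [hQ, union_sdiff_self, hP, biUnion_insert, inter_union_distrib_left, union_comm]
        have hdis : Disjoint P Q := disjoint_sdiff_right
        have hvP : (volume : Measure (En n)) P ≠ ⊤ :=
          ne_top_of_le_ne_top hvA (measure_mono inter_subset_left)
        have hvQ : (volume : Measure (En n)) Q ≠ ⊤ :=
          ne_top_of_le_ne_top hvA (measure_mono (sdiff_subset.trans inter_subset_left))
        have hQB : Q ⊆ ball y 1 := sdiff_subset.trans inter_subset_right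
        have hq := meas_aux (τ := τ) hCKn he (hl y hyA) hQm hQB
        rw [hPQ, measureReal_union hdis hQm, measureReal_union hdis hQm hvP hvQ]
        have e1 : CK n * (τ.real P + τ.real Q) - ((volume : Measure (En n)).real P +
            (volume : Measure (En n)).real Q) = (CK n * τ.real P - (volume : Measure (En n)).real P) +
            (CK n * τ.real Q - (volume : Measure (En n)).real Q) := by ring
        rw [e1, mul_add]
        exact (abs_add_le _ _).trans (add_le_add ih' hq)
    have h1 := key t htf Subset.rfl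
    rwa [inter_eq_left.2 hcov] at h1
  refine ⟨hbdd ε hε0 fun x₀ hx₀ f h1 h2 h3 => (hloc x₀ hx₀ f h1 h2 h3).1, fun hodd => ?_⟩
  have h0 := hbdd 0 le_rfl fun x₀ hx₀ f h1 h2 h3 => (hloc x₀ hx₀ f h1 h2 h3).2 hodd
  rw [zero_mul] at h0
  have h1 := abs_nonpos_iff.1 h0
  linarith

end Pool.Agent.Helper30.MB
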