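import Pool.Agent.Helper50.MB.Goals

/-!
# Project MB (MP_fda85d): GLH, the graph of a semi-meander and its dual
-/

set_option autoImplicit false

namespace Pool.Agent.Helper30.MB

open Pool.Agent.Helper50.MB

theorem adj_symm {V E : Type} {s t : E → V} {a b : V} (h : Adj s t a b) : Adj s t b a := by
  obtain ⟨e, h | h⟩ := h
  · exact ⟨e, Or.inr h⟩
  · exact ⟨e, Or.inl h⟩

theorem rtg_symm {V E : Type} {s t : E → V} {a b : V}
    (h : Relation.ReflTransGen (Adj s t) a b) : Relation.ReflTransGen (Adj s t) b a := by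
  induction h with
  | refl => exact Relation.ReflTransGen.refl
  | tail _ hbc ih => exact Relation.ReflTransGen.head (adj_symm hbc) ih

theorem cnd_of_root {V E : Type} {s t : E → V} (r : V)
    (h : ∀ v, Relation.ReflTransGen (Adj s t) v r) : Cnd s t := fun a b =>
  (h a).trans (rtg_symm (h b))

theorem mem_Ico {l h : ℤ} {a : ℤ → ℤ} (hn : NCI l h a) {x : ℤ} (hx : x < a x) : l ≤ x ∧ x < h := by
  by_contra hcon
  have h1 : x < l ∨ h ≤ x := by omega
  have := hn.out x h1
  omega

theorem mem_Ico' {l h : ℤ} {a : ℤ → ℤ} (hn : NCI l h a) {x : ℤ} (hx : x < a x) :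
    l ≤ a x ∧ a x < h := by
  by_contra hcon
  have h1 : a x < l ∨ h ≤ a x := by omega
  have h2 := hn.out (a x) h1
  rw [hn.inv] at h2
  omega

theorem finL {l h : ℤ} {a : ℤ → ℤ} (hn : NCI l h a) : Finite {x : ℤ // x < a x} := by
  have h1 : {x : ℤ | x < a x} ⊆ Set.Ico l h := fun x hx => mem_Ico hn hx
  exact ((Set.finite_Ico l h).subset h1).to_subtype

theorem ofNat_val {N : ℕ} [NeZero N] {k : ℕ} (hk : k < N) : (Fin.ofNat N k).1 = k :=
  Nat.mod_eq_of_lt hk

theorem ofNat_eq {N : ℕ} [NeZero N] {k : ℕ} (hk : k < N) (x : Fin N) :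
    Fin.ofNat N k = x ↔ k = x.1 := by
  rw [Fin.ext_iff, ofNat_val hk]

theorem cr_eq (z : ℤ) (k : ℕ) : cr z = k ↔ z = k ∨ z = -1 - (k : ℤ) := by
  unfold cr
  split_ifs with h <;> omega

theorem cr_lt {N : ℕ} {z : ℤ} (h1 : -(N : ℤ) ≤ z) (h2 : z < N) : cr z < N := by
  unfold cr
  split_ifs with h <;> omega

theorem goalGLH : GLH := by
  intro N _ a enc hn he
  have hN : 0 < N := Nat.pos_of_ne_zero (NeZero.ne N)
  have hfL : Finite {x : ℤ // x < a x} := finL hn
  -- incidences
  have inc_inl : ∀ (x : Fin N) (j : Fin (N - 1)),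
      (gS N a (Sum.inl j) = x ∨ gT N a (Sum.inl j) = x) → j.1 = x.1 ∨ j.1 + 1 = x.1 := by
    intro x j h
    have hj := j.2
    rcases h with h | h
    · left
      exact (ofNat_eq (by omega) x).1 h
    · right
      exact (ofNat_eq (by omega) x).1 h
  have inc_inr : ∀ (x : Fin N) (y : {x : ℤ // x < a x}),
      (gS N a (Sum.inr y) = x ∨ gT N a (Sum.inr y) = x) →
        (y.1 = x.1 ∨ a y.1 = x.1) ∨ (y.1 = -1 - (x.1 : ℤ) ∨ a y.1 = -1 - (x.1 : ℤ)) := by
    intro x y h
    obtain ⟨p1, p2⟩ := mem_Ico hn y.2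
    obtain ⟨p3, p4⟩ := mem_Ico' hn y.2
    rcases h with h | h
    · have h1 : cr y.1 = x.1 := (ofNat_eq (cr_lt p1 p2) x).1 h
      rw [cr_eq] at h1
      rcases h1 with h1 | h1
      · exact Or.inl (Or.inl h1)
      · exact Or.inr (Or.inl h1)
    · have h1 : cr (a y.1) = x.1 := (ofNat_eq (cr_lt p3 p4) x).1 h
      rw [cr_eq] at h1
      rcases h1 with h1 | h1
      · exact Or.inl (Or.inr h1)
      · exact Or.inr (Or.inr h1)
  refine ⟨inferInstance, inferInstance, ?_, ?_, ?_, ?_, ?_⟩
  · -- cardinalities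
    have h1 : Nat.card (Ed N a) = (N - 1) + Nat.card {x : ℤ // x < a x} := by
      rw [Nat.card_sum, Nat.card_eq_fintype_card, Fintype.card_fin]
    have h2 : Nat.card (Fc a) = Nat.card {x : ℤ // x < a x} + 1 := Finite.card_option
    rw [h1, h2]
    omega
  · -- the graph on the crossings
    refine cnd_of_root (⟨0, hN⟩ : Fin N) ?_
    have key : ∀ k : ℕ, ∀ hk : k < N, Relation.ReflTransGen (Adj (gS N a) (gT N a)) ⟨k, hk⟩
        (⟨0, hN⟩ : Fin N) := by
      intro k
      induction k with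
      | zero => intro _; exact Relation.ReflTransGen.refl
      | succ k ih =>
        intro hk
        refine Relation.ReflTransGen.head ?_ (ih (by omega))
        refine ⟨Sum.inl ⟨k, by omega⟩, Or.inr ⟨?_, ?_⟩⟩
        · show Fin.ofNat N k = _
          rw [ofNat_eq (by omega)]
        · show Fin.ofNat N (k + 1) = _
          rw [ofNat_eq (by omega)]
    exact fun v => key v.1 v.2
  · -- the dual graph
    refine cnd_of_root (none : Fc a) ?_
    have key : ∀ n : ℕ, ∀ y : {x : ℤ // x < a x}, (y.1 + N).toNat ≤ n →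
        Relation.ReflTransGen (Adj (qS N a enc) (qT N a enc)) (some y) none := by
      intro n
      induction n with
      | zero =>
        intro y hy
        have h1 : y.1 = -(N : ℤ) := by
          have := (mem_Ico hn y.2).1
          omega
        refine Relation.ReflTransGen.single ⟨Sum.inr y, Or.inl ⟨rfl, ?_⟩⟩
        show enc y.1 = none
        exact he.low _ h1.le
      | succ n ih =>
        intro y hy
        have h0 : Adj (qS N a enc) (qT N a enc) (some y) (enc y.1) :=
          ⟨Sum.inr y, Or.inl ⟨rfl, rfl⟩⟩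
        refine Relation.ReflTransGen.head h0 ?_
        cases hz : enc y.1 with
        | none => exact Relation.ReflTransGen.refl
        | some z =>
          have h1 := he.par y z hz
          refine ih z ?_
          have := (mem_Ico hn y.2).1
          have := (mem_Ico hn z.2).1
          omega
    intro v
    cases v with
    | none => exact Relation.ReflTransGen.refl
    | some y => exact key _ y le_rfl
  · -- degrees
    intro x
    have hsub : {e | gS N a e = x ∨ gT N a e = x} ⊆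
        (({e | ∃ j : Fin (N - 1), e = Sum.inl j ∧ j.1 = x.1} ∪
          {e | ∃ j : Fin (N - 1), e = Sum.inl j ∧ j.1 + 1 = x.1}) ∪
        {e | ∃ y : {x : ℤ // x < a x}, e = Sum.inr y ∧ (y.1 = x.1 ∨ a y.1 = x.1)}) ∪
        {e | ∃ y : {x : ℤ // x < a x}, e = Sum.inr y ∧
          (y.1 = -1 - (x.1 : ℤ) ∨ a y.1 = -1 - (x.1 : ℤ))} := by
      rintro (j | y) h
      · rcases inc_inl x j h with h1 | h1
        · exact Or.inl (Or.inl (Or.inl ⟨j, rfl, h1⟩))
        · exact Or.inl (Or.inl (Or.inr ⟨j, rfl, h1⟩))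
      · rcases inc_inr x y h with h1 | h1
        · exact Or.inl (Or.inr ⟨y, rfl, h1⟩)
        · exact Or.inr ⟨y, rfl, h1⟩
    have c1 : ({e | ∃ j : Fin (N - 1), e = Sum.inl j ∧ j.1 = x.1} : Set (Ed N a)).ncard ≤ 1 := by
      rw [Set.ncard_le_one_iff]
      rintro _ _ ⟨j, rfl, hj⟩ ⟨k, rfl, hk⟩
      congr 1
      exact Fin.ext (hj.trans hk.symm)
    have c2 : ({e | ∃ j : Fin (N - 1), e = Sum.inl j ∧ j.1 + 1 = x.1} : Set (Ed N a)).ncard
        ≤ 1 := by
      rw [Set.ncard_le_one_iff]
      rintro _ _ ⟨j, rfl, hj⟩ ⟨k, rfl, hk⟩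
      congr 1
      exact Fin.ext (by omega)
    have cy : ∀ w : ℤ, ({e | ∃ y : {x : ℤ // x < a x}, e = Sum.inr y ∧
        (y.1 = w ∨ a y.1 = w)} : Set (Ed N a)).ncard ≤ 1 := by
      intro w
      rw [Set.ncard_le_one_iff]
      rintro _ _ ⟨y, rfl, hy⟩ ⟨z, rfl, hz⟩
      congr 1
      apply Subtype.ext
      have hy' := y.2
      have hz' := z.2
      have iy := hn.inv y.1
      have iz := hn.inv z.1
      rcases hy with hy | hy <;> rcases hz with hz | hz
      · rw [hy, hz]
      · rw [hz, ← hy] at iz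
        rw [hy] at hy' iz
        omega
      · rw [hy, ← hz] at iy
        rw [hz] at hz' iy
        omega
      · rw [hy] at iy
        rw [hz] at iz
        rw [← iy, iz]
    refine (Set.ncard_le_ncard hsub (Set.toFinite _)).trans ?_
    refine (Set.ncard_union_le _ _).trans ?_
    have h3 := Set.ncard_union_le (({e | ∃ j : Fin (N - 1), e = Sum.inl j ∧ j.1 = x.1} ∪
          {e | ∃ j : Fin (N - 1), e = Sum.inl j ∧ j.1 + 1 = x.1}) : Set (Ed N a))
        {e | ∃ y : {x : ℤ // x < a x}, e = Sum.inr y ∧ (y.1 = x.1 ∨ a y.1 = x.1)}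
    have h4 := Set.ncard_union_le ({e | ∃ j : Fin (N - 1), e = Sum.inl j ∧ j.1 = x.1} :
      Set (Ed N a)) {e | ∃ j : Fin (N - 1), e = Sum.inl j ∧ j.1 + 1 = x.1}
    have h5 := cy x.1
    have h6 := cy (-1 - (x.1 : ℤ))
    omega
  · -- distances
    intro d hd x e hxe
    have hx := x.2
    have hz : ∀ z : ℤ, -(N : ℤ) ≤ z → z < N → d (enc z) ≤ d (enc (z + 1)) + 1 ∧
        d (enc (z + 1)) ≤ d (enc z) + 1 := by
      intro z h1 h2
      rcases lt_or_gt_of_ne (hn.ne z h1 h2) with h3 | h3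
      · have h4 : a z < a (a z) := by rw [hn.inv]; exact h3
        have h5 := he.right ⟨a z, h4⟩
        have h6 := he.right' ⟨a z, h4⟩
        simp only [hn.inv] at h5 h6
        have h7 := hd (Sum.inr ⟨a z, h4⟩)
        have h8 : qS N a enc (Sum.inr ⟨a z, h4⟩) = enc z := h5.symm
        have h9 : qT N a enc (Sum.inr ⟨a z, h4⟩) = enc (z + 1) := h6.symm
        rw [h8, h9] at h7
        exact h7
      · have h5 := he.left ⟨z, h3⟩
        have h7 := hd (Sum.inr ⟨z, h3⟩)
        have h8 : qS N a enc (Sum.inr ⟨z, h3⟩) = enc (z + 1) := h5.symm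
        have h9 : qT N a enc (Sum.inr ⟨z, h3⟩) = enc z := rfl
        rw [h8, h9] at h7
        exact ⟨h7.2, h7.1⟩
    have hr : d (enc (x.1 : ℤ)) ≤ d (enc (-(x.1 : ℤ))) + 1 ∧
        d (enc (-(x.1 : ℤ))) ≤ d (enc (x.1 : ℤ)) + 1 := by
      rcases Nat.eq_zero_or_pos x.1 with h0 | h0
      · rw [h0]
        simp
      · have h7 := hd (Sum.inl ⟨x.1 - 1, by omega⟩)
        have h8 : qS N a enc (Sum.inl ⟨x.1 - 1, by omega⟩) = enc (x.1 : ℤ) := by
          show enc (((x.1 - 1 : ℕ) : ℤ) + 1) = enc (x.1 : ℤ)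
          congr 1
          omega
        have h9 : qT N a enc (Sum.inl ⟨x.1 - 1, by omega⟩) = enc (-(x.1 : ℤ)) := by
          show enc (-1 - ((x.1 - 1 : ℕ) : ℤ)) = enc (-(x.1 : ℤ))
          congr 1
          omega
        rw [h8, h9] at h7
        exact h7
    have g1 := hz (x.1 : ℤ) (by omega) (by omega)
    have g2 := hz (-1 - (x.1 : ℤ)) (by omega) (by omega)
    have g3 : (-1 - (x.1 : ℤ)) + 1 = -(x.1 : ℤ) := by ring
    rw [g3] at g2
    -- ends of an arc
    have ends : ∀ (y : {x : ℤ // x < a x}) (w : ℤ), (y.1 = w ∨ a y.1 = w) →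
        (qS N a enc (Sum.inr y) = enc (w + 1) ∧ qT N a enc (Sum.inr y) = enc w) ∨
        (qS N a enc (Sum.inr y) = enc w ∧ qT N a enc (Sum.inr y) = enc (w + 1)) := by
      rintro y w (rfl | rfl)
      · exact Or.inl ⟨(he.left y).symm, rfl⟩
      · exact Or.inr ⟨(he.right y).symm, (he.right' y).symm⟩
    rcases e with j | y
    · rcases inc_inl x j hxe with h1 | h1
      · have h8 : qS N a enc (Sum.inl j) = enc ((x.1 : ℤ) + 1) := by
          show enc ((j.1 : ℤ) + 1) = _
          rw [h1]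
        have h9 : qT N a enc (Sum.inl j) = enc (-1 - (x.1 : ℤ)) := by
          show enc (-1 - (j.1 : ℤ)) = _
          rw [h1]
        rw [h8, h9]
        omega
      · have h8 : qS N a enc (Sum.inl j) = enc (x.1 : ℤ) := by
          show enc ((j.1 : ℤ) + 1) = _
          congr 1
          omega
        have h9 : qT N a enc (Sum.inl j) = enc (-(x.1 : ℤ)) := by
          show enc (-1 - (j.1 : ℤ)) = _
          congr 1
          omega
        rw [h8, h9]
        omega
    · rcases inc_inr x y hxe with h1 | h1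
      · rcases ends y _ h1 with ⟨h8, h9⟩ | ⟨h8, h9⟩
        · rw [h8, h9]
          omega
        · rw [h8, h9]
          omega
      · rcases ends y _ h1 with ⟨h8, h9⟩ | ⟨h8, h9⟩
        · rw [g3] at h8
          rw [h8, h9]
          omega
        · rw [g3] at h9
          rw [h8, h9]
          omega

end Pool.Agent.Helper30.MB
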